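import Pool.Agent.Helper11.LE.Goals2
import Pool.Agent.Helper42.RD.EXA
import Pool.Agent.Helper84.RSP.KUM
import Pool.Agent.Helper84.RSP.SPL
import Pool.Agent.Helper99.RSP.QEX
import Pool.Agent.Helper59.RS.PSM
import Pool.Agent.Helper58.RS.EUL
import Pool.Agent.Helper61.RS.ZET

/-!
# Project LE (MP_fc6b1e_nt), packet L_CH2: choice of `b` with two primes
-/

namespace Pool.Agent.Helper50.LE

open NumberField Module IsDedekindDomain
open Pool.Agent.Helper51.RP Pool.Agent.Helper42.RD Pool.Agent.Helper38.RSP Pool.Agent.Helper11.LE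
open Pool.Agent.Helper38.RS (pz)
open Pool.Agent.Helper40.RS (bel)
open Pool.Agent.Helper99.RS (pz_mono pz_union pz_finite finite_bad)
open Pool.Agent.Helper99.RSP (relNorm_coprime intNorm_congr locPow_up pw_down)

theorem sp_kum_all : SP_KUM :=
  Pool.Agent.Helper84.RSP.sp_kum Pool.Agent.Helper84.RSP.sp_spl
    (Pool.Agent.Helper59.RS.s_psm Pool.Agent.Helper58.RS.s_eul
      (Pool.Agent.Helper61.RS.s_zet Pool.Agent.Helper58.RS.s_eul))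

section fam

variable {p : ℕ} [Fact p.Prime] {F : Type} [Field F] [NumberField F] {𝔪 : Ideal (𝓞 F)} {n : ℕ}
  {η : Fin n → Ideal (𝓞 F) → ZMod p}

theorem cop_mul {I J : Ideal (𝓞 F)} (hI : I ⊔ 𝔪 = ⊤) (hJ : J ⊔ 𝔪 = ⊤) : I * J ⊔ 𝔪 = ⊤ := by
  rw [← Ideal.isCoprime_iff_sup_eq] at hI hJ ⊢
  exact hI.mul_left hJ

theorem fam_one (h : Fam p 𝔪 n η) (i : Fin n) : η i ⊤ = 0 := by
  have h1 := h.ray i 1 one_ne_zero (by rw [sub_self]; exact zero_mem _)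
  rwa [Ideal.span_singleton_one] at h1

theorem fam_pow (h : Fam p 𝔪 n η) {I : Ideal (𝓞 F)} (hI : I ≠ ⊥) (hI' : I ⊔ 𝔪 = ⊤) (k : ℕ) :
    I ^ k ≠ ⊥ ∧ I ^ k ⊔ 𝔪 = ⊤ ∧ ∀ i, η i (I ^ k) = k * η i I := by
  induction k with
  | zero =>
    rw [pow_zero, Ideal.one_eq_top]
    refine ⟨top_ne_bot, top_sup_eq _, fun i => ?_⟩
    rw [fam_one h, Nat.cast_zero, zero_mul]
  | succ k ih =>
    obtain ⟨h1, h2, h3⟩ := ih
    rw [pow_succ]
    refine ⟨mul_ne_zero h1 hI, cop_mul h2 hI', fun i => ?_⟩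
    rw [h.mul i _ _ h1 hI h2 hI', h3]
    push_cast
    ring

/-- The group of the values of the family. -/
def vals (h : Fam p 𝔪 n η) : AddSubgroup (Fin n → ZMod p) where
  carrier := {g | ∃ I, I ≠ ⊥ ∧ I ⊔ 𝔪 = ⊤ ∧ ∀ i, η i I = g i}
  zero_mem' := ⟨⊤, top_ne_bot, top_sup_eq _, fun i => fam_one h i⟩
  add_mem' := by
    rintro a b ⟨I, hI, hI', hIa⟩ ⟨J, hJ, hJ', hJb⟩
    refine ⟨I * J, mul_ne_zero hI hJ, cop_mul hI' hJ', fun i => ?_⟩
    rw [h.mul i I J hI hJ hI' hJ', hIa, hJb]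
    rfl
  neg_mem' := by
    rintro a ⟨I, hI, hI', hIa⟩
    obtain ⟨h1, h2, h3⟩ := fam_pow h hI hI' (p - 1)
    refine ⟨I ^ (p - 1), h1, h2, fun i => ?_⟩
    rw [h3, hIa, Nat.cast_sub (Fact.out : p.Prime).one_le, CharP.cast_eq_zero]
    rw [Pi.neg_apply]
    push_cast
    ring

theorem onto (h : Fam p 𝔪 n η) (hi : Ind p 𝔪 n η) (w : Fin n → ZMod p) :
    ∃ I, I ≠ ⊥ ∧ I ⊔ 𝔪 = ⊤ ∧ ∀ i, η i I = w i := by
  let V : Submodule (ZMod p) (Fin n → ZMod p) := AddSubgroup.toZModSubmodule p (vals h)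
  have hV : ∀ g, g ∈ V ↔ ∃ I, I ≠ ⊥ ∧ I ⊔ 𝔪 = ⊤ ∧ ∀ i, η i I = g i := fun g => Iff.rfl
  rw [← hV]
  by_contra hw
  have hlt : V < ⊤ := lt_top_iff_ne_top.2 fun h0 => hw (h0 ▸ Submodule.mem_top)
  obtain ⟨f, hf, hle⟩ := Submodule.exists_le_ker_of_lt_top V hlt
  have hsum : ∀ g : Fin n → ZMod p, f g = ∑ i, f (Pi.single i 1) * g i := by
    intro g
    rw [LinearMap.pi_apply_eq_sum_univ f g]
    refine Finset.sum_congr rfl fun i _ => ?_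
    rw [smul_eq_mul, mul_comm]
    congr 2
    funext j
    rw [Pi.single_apply]
    simp only [eq_comm]
  have hc : (fun i => f (Pi.single i 1)) ≠ 0 := by
    intro h0
    apply hf
    refine LinearMap.ext fun g => ?_
    rw [hsum, LinearMap.zero_apply]
    refine Finset.sum_eq_zero fun i _ => ?_
    rw [show f (Pi.single i 1) = 0 from congrFun h0 i, zero_mul]
  obtain ⟨I, hI, hI', hne⟩ := hi _ hc
  apply hne
  rw [← hsum fun i => η i I]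
  exact hle ((hV _).2 ⟨I, hI, hI', fun i => rfl⟩)

theorem fam_append {k : ℕ} {ψ : Fin k → Ideal (𝓞 F) → ZMod p} (h : Fam p 𝔪 n η)
    (h' : Fam p 𝔪 k ψ) : Fam p 𝔪 (n + k) (Fin.append η ψ) := by
  refine ⟨h.ne, ?_, ?_⟩
  · intro i
    refine Fin.addCases (fun j => ?_) (fun j => ?_) i
    · rw [Fin.append_left]
      exact h.mul j
    · rw [Fin.append_right]
      exact h'.mul j
  · intro i
    refine Fin.addCases (fun j => ?_) (fun j => ?_) i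
    · rw [Fin.append_left]
      exact h.ray j
    · rw [Fin.append_right]
      exact h'.ray j

theorem append_iff {k : ℕ} {ψ : Fin k → Ideal (𝓞 F) → ZMod p} (κ : Fin n → ZMod p)
    (w : Fin k → ZMod p) (I : Ideal (𝓞 F)) :
    (∀ i, Fin.append η ψ i I = Fin.append κ w i) ↔ (∀ i, η i I = κ i) ∧ ∀ i, ψ i I = w i := by
  constructor
  · intro h
    refine ⟨fun i => ?_, fun i => ?_⟩
    · have := h (Fin.castAdd k i)
      rwa [Fin.append_left, Fin.append_left] at this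
    · have := h (Fin.natAdd n i)
      rwa [Fin.append_right, Fin.append_right] at this
  · rintro ⟨h1, h2⟩ i
    refine Fin.addCases (fun j => ?_) (fun j => ?_) i
    · rw [Fin.append_left, Fin.append_left]
      exact h1 j
    · rw [Fin.append_right, Fin.append_right]
      exact h2 j

theorem append_add {k : ℕ} (κ κ' : Fin n → ZMod p) (w w' : Fin k → ZMod p) :
    Fin.append κ w + Fin.append κ' w' = Fin.append (κ + κ') (w + w') := by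
  funext i
  refine Fin.addCases (fun j => ?_) (fun j => ?_) i
  · rw [Pi.add_apply, Fin.append_left, Fin.append_left, Fin.append_left, Pi.add_apply]
  · rw [Pi.add_apply, Fin.append_right, Fin.append_right, Fin.append_right, Pi.add_apply]

theorem append_neg {k : ℕ} (κ : Fin n → ZMod p) (w : Fin k → ZMod p) :
    -Fin.append κ w = Fin.append (-κ) (-w) := by
  funext i
  refine Fin.addCases (fun j => ?_) (fun j => ?_) i
  · rw [Pi.neg_apply, Fin.append_left, Fin.append_left, Pi.neg_apply]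
  · rw [Pi.neg_apply, Fin.append_right, Fin.append_right, Pi.neg_apply]

theorem pr_neg (g : Fin n → ZMod p) : Pr p 𝔪 n η (-g) = Pr p 𝔪 n η g := by
  ext v
  show (v.asIdeal ⊔ 𝔪 = ⊤ ∧ ((∀ i, η i v.asIdeal = -g i) ∨ ∀ i, η i v.asIdeal = - -g i)) ↔
    (v.asIdeal ⊔ 𝔪 = ⊤ ∧ ((∀ i, η i v.asIdeal = g i) ∨ ∀ i, η i v.asIdeal = -g i))
  simp only [neg_neg]
  rw [or_comm]

end fam

section thin

variable {F : Type} [Field F] [NumberField F]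

theorem thin_union {S T : Set (HeightOneSpectrum (𝓞 F))} (hS : Thin S) (hT : Thin T) :
    Thin (S ∪ T) := by
  obtain ⟨C, hC⟩ := hS
  obtain ⟨D, hD⟩ := hT
  refine ⟨C + D, fun s h1 h2 => ?_⟩
  have h3 := pz_union S T s h1
  have h4 := hC s h1 h2
  have h5 := hD s h1 h2
  linarith

theorem thin_empty : Thin (∅ : Set (HeightOneSpectrum (𝓞 F))) := by
  refine ⟨_, fun s h1 _ => pz_finite Set.finite_empty s h1⟩

theorem thin_biUnion {ι : Type} (s : Finset ι) (f : ι → Set (HeightOneSpectrum (𝓞 F)))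
    (h : ∀ i ∈ s, Thin (f i)) : Thin (⋃ i ∈ s, f i) := by
  classical
  induction s using Finset.induction_on with
  | empty =>
    simp only [Finset.notMem_empty, Set.iUnion_of_empty, Set.iUnion_empty]
    exact thin_empty
  | insert a s _ ih =>
    rw [Finset.set_biUnion_insert]
    exact thin_union (h a (Finset.mem_insert_self a s))
      (ih fun i hi => h i (Finset.mem_insert_of_mem hi))

theorem finite_div {𝔫 : Ideal (𝓞 F)} (h : 𝔫 ≠ ⊥) :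
    {v : HeightOneSpectrum (𝓞 F) | ¬ v.asIdeal ⊔ 𝔫 = ⊤}.Finite := by
  refine (Ideal.finite_factors h).subset ?_
  intro v hv
  show v.asIdeal ∣ 𝔫
  rw [Ideal.dvd_iff_le]
  by_contra h1
  exact hv (v.isMaximal.out.2 _ (left_lt_sup.2 h1))

end thin


/-- The relative characters. -/
theorem fam_rel {p : ℕ} [Fact p.Prime] {K K₁ : Type} [Field K] [NumberField K] [Field K₁]
    [NumberField K₁] [Algebra K K₁] [IsGalois K K₁] {𝔪 : Ideal (𝓞 K)} {m : ℕ}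
    {ψ : Fin m → Ideal (𝓞 K) → ZMod p} (hψ : Fam p 𝔪 m ψ) {𝔫' : Ideal (𝓞 K₁)} (hn : 𝔫' ≠ ⊥)
    (hle : 𝔫' ≤ 𝔪.map (algebraMap (𝓞 K) (𝓞 K₁))) :
    (∀ I : Ideal (𝓞 K₁), I ⊔ 𝔫' = ⊤ → Ideal.relNorm (𝓞 K) I ⊔ 𝔪 = ⊤) ∧
    Fam p 𝔫' m (fun i I => ψ i (Ideal.relNorm (𝓞 K) I)) := by
  have hnc : ∀ I : Ideal (𝓞 K₁), I ⊔ 𝔫' = ⊤ → Ideal.relNorm (𝓞 K) I ⊔ 𝔪 = ⊤ := by
    intro I hI
    apply relNorm_coprime 𝔪 I
    rw [eq_top_iff, ← hI]
    exact sup_le_sup_left hle I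
  refine ⟨hnc, hn, ?_, ?_⟩
  · intro i I J hI hJ hI' hJ'
    show ψ i (Ideal.relNorm (𝓞 K) (I * J)) = _
    rw [map_mul]
    exact hψ.mul i _ _ (by rwa [Ne, Ideal.relNorm_eq_bot_iff])
      (by rwa [Ne, Ideal.relNorm_eq_bot_iff]) (hnc I hI') (hnc J hJ')
  · intro i α hα h
    show ψ i (Ideal.relNorm (𝓞 K) (Ideal.span {α})) = 0
    rw [Ideal.relNorm_singleton]
    refine hψ.ray i _ ?_ (intNorm_congr 𝔪 α (hle h))
    intro h0
    apply hα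
    have h1 : Ideal.relNorm (𝓞 K) (Ideal.span {α}) = ⊥ := by
      rw [Ideal.relNorm_singleton, h0, Ideal.span_singleton_eq_bot]
    rw [Ideal.relNorm_eq_bot_iff, Ideal.span_singleton_eq_bot] at h1
    exact h1

theorem two_ne {p : ℕ} [Fact p.Prime] (hp2 : p ≠ 2) : (2 : ZMod p) ≠ 0 := by
  intro h
  have h1 : ((2 : ℕ) : ZMod p) = 0 := by exact_mod_cast h
  rw [ZMod.natCast_eq_zero_iff] at h1
  exact hp2 ((Nat.prime_dvd_prime_iff_eq (Fact.out : p.Prime) Nat.prime_two).1 h1)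

theorem exists_not_mul {p : ℕ} [Fact p.Prime] (w₁ : Fin 2 → ZMod p) (h : w₁ ≠ 0) :
    ∃ w : Fin 2 → ZMod p, ∀ c : ZMod p, w ≠ c • w₁ := by
  by_cases h0 : w₁ 0 = 0
  · have h1 : w₁ 1 ≠ 0 := by
      intro h1
      apply h
      funext i
      fin_cases i
      · exact h0
      · exact h1
    refine ⟨![1, 0], fun c hc => ?_⟩
    have h2 := congrFun hc 0
    simp [h0] at h2
  · refine ⟨![0, 1], fun c hc => ?_⟩
    have h2 := congrFun hc 0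
    have h3 := congrFun hc 1
    simp only [Matrix.cons_val_zero, Pi.smul_apply, smul_eq_mul] at h2
    have h4 : c = 0 := (mul_eq_zero.1 h2.symm).resolve_right h0
    rw [h4] at h3
    simp at h3

/-- Two independent vectors. -/
theorem indep_pair {p : ℕ} [Fact p.Prime] (w₁ w₂ : Fin 2 → ZMod p) (h : w₁ ≠ 0)
    (h2 : ∀ c : ZMod p, w₂ ≠ c • w₁) (a b : ZMod p) (hab : ∀ i, a * w₁ i + b * w₂ i = 0) :
    a = 0 ∧ b = 0 := by
  have hb : b = 0 := by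
    by_contra hb
    apply h2 (-(b⁻¹ * a))
    funext i
    rw [Pi.smul_apply, smul_eq_mul]
    have h3 := hab i
    have h4 : w₂ i = b⁻¹ * (b * w₂ i) := by rw [← mul_assoc, inv_mul_cancel₀ hb, one_mul]
    rw [h4, eq_neg_of_add_eq_zero_right h3]
    ring
  refine ⟨?_, hb⟩
  by_contra ha
  apply h
  funext i
  have h3 := hab i
  rw [hb, zero_mul, add_zero] at h3
  exact (mul_eq_zero.1 h3).resolve_left ha

theorem l_ch2 (h1 : L_CYC) (h2 : L_OME) (h3 : L_MOD) (h4 : L_ANN) (h5 : L_SUP) (h6 : L_FRE)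
    (h7 : L_PIK) : Pool.Agent.Helper11.LE.L_CH2 := by
  intro p _ hp2 K K₁ _ _ _ _ _ ε hC hfr x₀ hx 𝔪 ψ hψ hind 𝔫 h𝔫 Z hZ
  classical
  have hp : p.Prime := Fact.out
  have hgal : IsGalois K K₁ := hC.gal
  obtain ⟨-, hcop, -, htc⟩ := h1 p K K₁ ε hC
  have htc' : IsTotallyComplex K₁ := htc hp2
  have hinj : Function.Injective (algebraMap (𝓞 K) (𝓞 K₁)) :=
    FaithfulSMul.algebraMap_injective _ _
  have h𝔪0 : 𝔪.map (algebraMap (𝓞 K) (𝓞 K₁)) ≠ ⊥ := by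
    rw [Ne, Ideal.map_eq_bot_iff_of_injective hinj]
    exact hψ.ne
  obtain ⟨𝔫', n, η, hle, -, hη, hO1, hO2⟩ := h2 p K K₁ ε hC
    (𝔫 * 𝔪.map (algebraMap (𝓞 K) (𝓞 K₁))) (mul_ne_zero h𝔫 h𝔪0)
  have hle𝔪 : 𝔫' ≤ 𝔪.map (algebraMap (𝓞 K) (𝓞 K₁)) := hle.trans Ideal.mul_le_right
  have hle𝔫 : 𝔫' ≤ 𝔫 := hle.trans Ideal.mul_le_left
  obtain ⟨hnc, hψ'⟩ := fam_rel hψ hη.ne hle𝔪
  set ψ' : Fin 2 → Ideal (𝓞 K₁) → ZMod p := fun i I => ψ i (Ideal.relNorm (𝓞 K) I) with hψdef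
  have hrn0 : Ideal.relNorm (𝓞 K) 𝔫' ≠ ⊥ := by
    rw [Ne, Ideal.relNorm_eq_bot_iff]
    exact hη.ne
  have hfrO : finrank (𝓞 K) (𝓞 K₁) = finrank K K₁ :=
    (IsFractionRing.finrank_eq (𝓞 K) K (𝓞 K₁) K₁).symm
  have hfr0 : ((finrank K K₁ : ℕ) : ZMod p) ≠ 0 := by
    intro h0
    rw [ZMod.natCast_eq_zero_iff] at h0
    have h9 : p ∣ 1 := by
      rw [← hcop]
      exact Nat.dvd_gcd h0 dvd_rfl
    exact hp.one_lt.ne' (Nat.dvd_one.1 h9)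
  -- (0, w) is a value
  have hS0 : ∀ w : Fin 2 → ZMod p, ∃ I : Ideal (𝓞 K₁), I ≠ ⊥ ∧ I ⊔ 𝔫' = ⊤ ∧
      ∀ i, ψ' i I = w i := by
    intro w
    obtain ⟨hF2, hI2⟩ := h3 p K 𝔪 (𝔪 * Ideal.relNorm (𝓞 K) 𝔫') 2 ψ hψ hind
      (mul_ne_zero hψ.ne hrn0) Ideal.mul_le_left
    obtain ⟨J, hJ, hJ', hJw⟩ := onto hF2 hI2 (fun i => ((finrank K K₁ : ℕ) : ZMod p)⁻¹ * w i)
    have hJ𝔪 : J ⊔ 𝔪 = ⊤ := by
      rw [eq_top_iff, ← hJ']
      exact sup_le_sup_left Ideal.mul_le_left J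
    have hJ𝔫 : J ⊔ Ideal.relNorm (𝓞 K) 𝔫' = ⊤ := by
      rw [eq_top_iff, ← hJ']
      exact sup_le_sup_left Ideal.mul_le_right J
    refine ⟨J.map (algebraMap (𝓞 K) (𝓞 K₁)), ?_, ?_, ?_⟩
    · rwa [Ne, Ideal.map_eq_bot_iff_of_injective hinj]
    · rw [eq_top_iff, ← Ideal.map_top (algebraMap (𝓞 K) (𝓞 K₁)), ← hJ𝔫, Ideal.map_sup]
      refine sup_le_sup_left ?_ _
      rw [Ideal.map_le_iff_le_comap]
      exact Ideal.relNorm_le_comap _ 𝔫'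
    · intro i
      show ψ i (Ideal.relNorm (𝓞 K) (J.map (algebraMap (𝓞 K) (𝓞 K₁)))) = w i
      rw [Ideal.relNorm_algebraMap, hfrO, (fam_pow hψ hJ hJ𝔪 _).2.2 i, hJw, ← mul_assoc,
        mul_inv_cancel₀ hfr0, one_mul]
  have hpw : ∀ (i : Fin 2) (J₀ : Ideal (𝓞 K₁)), J₀ ≠ ⊥ → J₀ ⊔ 𝔫' = ⊤ →
      ψ i (Ideal.relNorm (𝓞 K) J₀ ^ p) = 0 := by
    intro i J₀ hJ hJ'
    rw [(fam_pow hψ (by rwa [Ne, Ideal.relNorm_eq_bot_iff]) (hnc J₀ hJ') p).2.2 i,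
      CharP.cast_eq_zero, zero_mul]
  have hS1 : ∀ w : Fin 2 → ZMod p, ∃ I : Ideal (𝓞 K₁), I ≠ ⊥ ∧ I ⊔ 𝔫' = ⊤ ∧
      (∀ i, η i I = 0) ∧ ∀ i, ψ' i I = w i := by
    intro w
    obtain ⟨I, hI, hI', hIw⟩ := hS0 w
    obtain ⟨J, J₀, hJ, hJ', hJ₀, hJ₀', hJη, hJN⟩ := (hO1 hfr I hI hI').2
    refine ⟨J, hJ, hJ', hJη, fun i => ?_⟩
    show ψ i (Ideal.relNorm (𝓞 K) J) = w i
    have hpow := fam_pow hψ (by rwa [Ne, Ideal.relNorm_eq_bot_iff]) (hnc J₀ hJ₀') p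
    rw [hJN, hψ.mul i _ _ (by rwa [Ne, Ideal.relNorm_eq_bot_iff]) hpow.1 (hnc I hI') hpow.2.1,
      hpw i J₀ hJ₀ hJ₀', add_zero]
    exact hIw i
  have hS2 : ∀ I : Ideal (𝓞 K₁), I ≠ ⊥ → I ⊔ 𝔫' = ⊤ → ∀ w : Fin 2 → ZMod p,
      ∃ J : Ideal (𝓞 K₁), J ≠ ⊥ ∧ J ⊔ 𝔫' = ⊤ ∧ (∀ i, η i J = η i I) ∧ ∀ i, ψ' i J = w i := by
    intro I hI hI' w
    obtain ⟨J, J₀, hJ, hJ', hJ₀, hJ₀', hJη, hJN⟩ := (hO1 hfr I hI hI').1
    obtain ⟨J₂, hJ₂, hJ₂', hJ₂η, hJ₂w⟩ := hS1 w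
    refine ⟨J * J₂, mul_ne_zero hJ hJ₂, cop_mul hJ' hJ₂', fun i => ?_, fun i => ?_⟩
    · rw [hη.mul i J J₂ hJ hJ₂ hJ' hJ₂', hJη, hJ₂η, add_zero]
    · rw [hψ'.mul i J J₂ hJ hJ₂ hJ' hJ₂', hJ₂w]
      have h9 : ψ' i J = 0 := by
        show ψ i (Ideal.relNorm (𝓞 K) J) = 0
        rw [hJN]
        exact hpw i J₀ hJ₀ hJ₀'
      rw [h9, zero_add]
  have hind' : Ind p 𝔫' 2 ψ' := by
    intro c hc
    obtain ⟨i, hi⟩ := Function.ne_iff.1 hc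
    obtain ⟨I, hI, hI', -, hIw⟩ := hS1 (Pi.single i 1)
    refine ⟨I, hI, hI', ?_⟩
    rw [Finset.sum_eq_single i]
    · rw [hIw, Pi.single_eq_same, mul_one]
      exact hi
    · intro j _ hj
      rw [hIw, Pi.single_eq_of_ne hj, mul_zero]
    · intro h9
      exact absurd (Finset.mem_univ i) h9
  -- the family Φ
  have hΦ := fam_append hη hψ'
  set Φ : Fin (n + 2) → Ideal (𝓞 K₁) → ZMod p := Fin.append η ψ' with hΦdef
  -- Q₁
  have hx0 : algebraMap K K₁ (x₀ : K) ≠ 0 := by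
    rw [Ne, map_eq_zero_iff _ (algebraMap K K₁).injective]
    exact x₀.ne_zero
  have hx' : ¬ ∃ y : K₁, y ^ p = algebraMap K K₁ (x₀ : K) := by
    rintro ⟨y, hy⟩
    exact hx (pw_down p hcop x₀ y hy)
  have hA₁ : Dens {v : HeightOneSpectrum (𝓞 K₁) | v.valuation K₁ (p : K₁) = 1 ∧
      LocPow p v (algebraMap K K₁ (x₀ : K))} (1 / (p : ℝ)) :=
    sp_kum_all p K₁ ε (algebraMap K K₁ (x₀ : K)) hC.prim hx0 hx'
  have hA₂ := h4 p K₁ 𝔫' 2 ψ' hψ' hind' ⊤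
  have hcard : (Nat.card (⊤ : AddSubgroup (Fin 2 → ZMod p)) : ℝ) = (p : ℝ) ^ 2 := by
    have h9 : Nat.card (⊤ : AddSubgroup (Fin 2 → ZMod p)) = p ^ 2 := by
      rw [Nat.card_congr AddSubgroup.topEquiv.toEquiv, Nat.card_eq_fintype_card,
        Fintype.card_fun, ZMod.card, Fintype.card_fin]
    rw [h9]
    push_cast
    rfl
  rw [hcard] at hA₂
  obtain ⟨Z₁, hZ₁, hfre⟩ := h6 K K₁
  set B : Set (HeightOneSpectrum (𝓞 K₁)) :=
    ⋃ g ∈ (Finset.univ.filter fun g : Fin (n + 2) → ZMod p => Thin (Pr p 𝔫' (n + 2) Φ g)),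
      Pr p 𝔫' (n + 2) Φ g with hBdef
  have hB : Thin B := thin_biUnion _ _ fun g hg => (Finset.mem_filter.1 hg).2
  set Z₂ : Set (HeightOneSpectrum (𝓞 K₁)) :=
    (({v | ¬ v.asIdeal ⊔ 𝔫' = ⊤} ∪ {v | v.valuation K₁ (p : K₁) ≠ 1}) ∪
      {v | bel K v ∈ Z}) ∪ Z₁ with hZ₂def
  have hZ₂ : Z₂.Finite := by
    refine (((finite_div hη.ne).union ?_).union ?_).union hZ₁
    · exact finite_bad (by exact_mod_cast hp.ne_zero)
    · exact finite_above Z hZ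
  have hsum1 : 1 / (p : ℝ) + 1 / (p : ℝ) ^ 2 < 1 := by
    have h9 : (2 : ℝ) ≤ (p : ℝ) := by exact_mod_cast hp.two_le
    have h10 : 1 / (p : ℝ) ≤ 1 / 2 := one_div_le_one_div_of_le (by norm_num) h9
    have h11 : 1 / (p : ℝ) ^ 2 ≤ 1 / 2 ^ 2 :=
      one_div_le_one_div_of_le (by norm_num) (pow_le_pow_left₀ (by norm_num) h9 2)
    linarith
  obtain ⟨Q₁, hQA₁, hQA₂, hQB, hQZ, hQN⟩ := (h7 K₁).1 _ _ B Z₂ _ _ hA₁ hA₂ hsum1 hB hZ₂
  have hgood : ∀ Q : HeightOneSpectrum (𝓞 K₁), Q ∉ Z₂ → Q.asIdeal ⊔ 𝔫' = ⊤ ∧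
      Q.valuation K₁ (p : K₁) = 1 ∧ bel K Q ∉ Z ∧ Q ∉ Z₁ := by
    intro Q hQ
    rw [hZ₂def, Set.mem_union, Set.mem_union, Set.mem_union, not_or, not_or, not_or] at hQ
    exact ⟨not_not.1 hQ.1.1.1, not_not.1 hQ.1.1.2, hQ.1.2, hQ.2⟩
  obtain ⟨hQ1, hQ2, hQ3, hQ4⟩ := hgood Q₁ hQZ
  have hQpow : ¬ LocPow p Q₁ (algebraMap K K₁ (x₀ : K)) := fun h9 => hQA₁ ⟨hQ2, h9⟩
  obtain ⟨κ, hκ⟩ : ∃ κ : Fin n → ZMod p, ∀ i, η i Q₁.asIdeal = κ i := ⟨_, fun _ => rfl⟩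
  obtain ⟨w₁, hw₁⟩ : ∃ w₁ : Fin 2 → ZMod p, ∀ i, ψ' i Q₁.asIdeal = w₁ i := ⟨_, fun _ => rfl⟩
  have hw₁0 : w₁ ≠ 0 := by
    intro h0
    apply hQA₂
    refine ⟨hQ1, fun c _ => Finset.sum_eq_zero fun i _ => ?_⟩
    rw [hw₁, h0, Pi.zero_apply, mul_zero]
  have hnt : ¬ Thin (Pr p 𝔫' (n + 2) Φ (Fin.append κ w₁)) := by
    intro h9
    apply hQB
    rw [hBdef]
    refine Set.mem_iUnion₂.2 ⟨Fin.append κ w₁, Finset.mem_filter.2 ⟨Finset.mem_univ _, h9⟩, ?_⟩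
    exact ⟨hQ1, Or.inl ((append_iff κ w₁ Q₁.asIdeal).2 ⟨hκ, hw₁⟩)⟩
  -- Q₂
  have hval : ∀ w : Fin 2 → ZMod p, Fin.append κ w ∈ vals hΦ := by
    intro w
    obtain ⟨J, hJ, hJ', hJη, hJw⟩ := hS2 Q₁.asIdeal Q₁.ne_bot hQ1 w
    refine ⟨J, hJ, hJ', (append_iff κ w J).2 ⟨fun i => ?_, hJw⟩⟩
    rw [hJη, hκ]
  obtain ⟨w₂, hw₂, hnt₂⟩ : ∃ w₂ : Fin 2 → ZMod p, (∀ c : ZMod p, w₂ ≠ c • w₁) ∧
      ¬ Thin (Pr p 𝔫' (n + 2) Φ (Fin.append κ w₂)) := by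
    by_contra hcon
    push Not at hcon
    obtain ⟨w, hw⟩ := exists_not_mul w₁ hw₁0
    have hu : ∀ c : ZMod p, (w + w) - w₁ ≠ c • w₁ := by
      intro c hc
      apply hw ((c + 1) * 2⁻¹)
      funext i
      have h9 := congrFun hc i
      simp only [Pi.sub_apply, Pi.add_apply, Pi.smul_apply, smul_eq_mul] at h9 ⊢
      have h10 : (2 : ZMod p) * w i = (c + 1) * w₁ i := by
        linear_combination h9
      have h11 : w i = 2⁻¹ * (2 * w i) := by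
        rw [← mul_assoc, inv_mul_cancel₀ (two_ne hp2), one_mul]
      rw [h11, h10]
      ring
    have hT1 := hcon w hw
    have hT2 := hcon _ hu
    have hT3 := h5 p K₁ 𝔫' (n + 2) Φ hΦ _ _ (hval w) (hval w) hT1 hT1
    have hT4 : Thin (Pr p 𝔫' (n + 2) Φ (-Fin.append κ ((w + w) - w₁))) := by
      rw [pr_neg]
      exact hT2
    have hT5 := h5 p K₁ 𝔫' (n + 2) Φ hΦ _ _ ((vals hΦ).add_mem (hval w) (hval w))
      ((vals hΦ).neg_mem (hval _)) hT3 hT4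
    apply hnt
    have h9 : Fin.append κ w + Fin.append κ w + -Fin.append κ ((w + w) - w₁) =
        Fin.append κ w₁ := by
      rw [append_neg, append_add, append_add]
      congr 1
      · abel
      · abel
    rw [← h9]
    exact hT5
  obtain ⟨Q₂, hQ₂m, hQ₂Z, hQ₂N⟩ := (h7 K₁).2 _ (Z₂ ∪ {v | bel K v ∈ ({bel K Q₁} : Set _)}) hnt₂
    (hZ₂.union (finite_above _ (Set.finite_singleton _)))
  rw [Set.mem_union, not_or] at hQ₂Z
  obtain ⟨hP1, hP2, hP3, hP4⟩ := hgood Q₂ hQ₂Z.1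
  have hbne : bel K Q₂ ≠ bel K Q₁ := hQ₂Z.2
  obtain ⟨e, he, heη, heψ⟩ : ∃ e : ℤ, e * e = 1 ∧ (∀ i, η i Q₂.asIdeal = e * κ i) ∧
      ∀ i, ψ' i Q₂.asIdeal = e * w₂ i := by
    rcases hQ₂m.2 with h9 | h9
    · obtain ⟨h10, h11⟩ := (append_iff κ w₂ Q₂.asIdeal).1 h9
      refine ⟨1, by norm_num, fun i => ?_, fun i => ?_⟩
      · rw [h10, Int.cast_one, one_mul]
      · rw [h11, Int.cast_one, one_mul]
    · have h12 : ∀ i, Φ i Q₂.asIdeal = Fin.append (-κ) (-w₂) i := by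
        intro i
        rw [h9, ← append_neg]
        rfl
      obtain ⟨h10, h11⟩ := (append_iff (-κ) (-w₂) Q₂.asIdeal).1 h12
      refine ⟨-1, by norm_num, fun i => ?_, fun i => ?_⟩
      · rw [h10, Pi.neg_apply]
        push_cast
        ring
      · rw [h11, Pi.neg_apply]
        push_cast
        ring
  have hez : ((e : ℤ) : ZMod p) * ((e : ℤ) : ZMod p) = 1 := by
    rw [← Int.cast_mul, he, Int.cast_one]
  obtain ⟨hfree₁, hnrm₁⟩ := hfre Q₁ hQ4 hQN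
  obtain ⟨hfree₂, hnrm₂⟩ := hfre Q₂ hP4 hQ₂N
  have hn₁ := hnrm₁ (bel K Q₁) (above_bel Q₁)
  have hn₂ := hnrm₂ (bel K Q₂) (above_bel Q₂)
  -- b
  obtain ⟨b, hb0, hb1, hbO, hbv⟩ := hO2 2 ![Q₁, Q₂] ![1, -e] (by
    intro i
    fin_cases i
    · refine ⟨hQ1, hfree₁, ?_⟩
      show ¬ (p : ℤ) ∣ 1
      intro h9
      exact hp.one_lt.ne' (by exact_mod_cast Int.eq_one_of_dvd_one (by positivity) h9)
    · refine ⟨hP1, hfree₂, ?_⟩
      show ¬ (p : ℤ) ∣ -e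
      intro h9
      have h10 : (p : ℤ) ∣ 1 := by
        rw [← he]
        exact ((dvd_neg.1 h9).mul_right e)
      exact hp.one_lt.ne' (by exact_mod_cast Int.eq_one_of_dvd_one (by positivity) h10)) (by
    have h9 : ¬ ConjP K Q₁ Q₂ := fun h10 => hbne (bel_eq_of_conj h10).symm
    have h9' : ¬ ConjP K Q₂ Q₁ := fun h10 => hbne (bel_eq_of_conj h10)
    intro i j hij
    fin_cases i <;> fin_cases j
    · exact absurd rfl hij
    · exact h9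
    · exact h9'
    · exact absurd rfl hij) (by
    intro j
    rw [Fin.sum_univ_two]
    show (((1 : ℤ) : ZMod p)) * η j Q₁.asIdeal + (((-e : ℤ)) : ZMod p) * η j Q₂.asIdeal = 0
    rw [hκ, heη]
    push_cast
    linear_combination (-(κ j)) * hez)
  refine ⟨b, {bel K Q₁, bel K Q₂}, hb0, hle𝔫 hb1, hbO, ?_, ?_, ?_, ?_⟩
  · intro w hw
    rw [Finset.mem_insert, Finset.mem_singleton] at hw
    rcases hw with rfl | rfl
    · refine ⟨hQ3, ?_⟩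
      rw [← hn₁]
      exact hnc _ hQ1
    · refine ⟨hP3, ?_⟩
      rw [← hn₂]
      exact hnc _ hP1
  · intro W w hWw
    have hWb : bel K W = w := Pool.Agent.Helper40.RD.bel_of_above hWw
    constructor
    · intro hw
      rw [Finset.mem_insert, Finset.mem_singleton] at hw
      rcases hw with hw | hw
      · have hc : ConjP K W Q₁ := conj_of_bel' (hWb.trans hw)
        exact ⟨free_of_conj hc hfree₁, (hbv W).1 ⟨0, hc⟩⟩
      · have hc : ConjP K W Q₂ := conj_of_bel' (hWb.trans hw)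
        exact ⟨free_of_conj hc hfree₂, (hbv W).1 ⟨1, hc⟩⟩
    · intro hw
      rw [Finset.mem_insert, Finset.mem_singleton, not_or] at hw
      refine (hbv W).2 fun i => ?_
      fin_cases i
      · intro hc
        exact hw.1 (hWb.symm.trans (bel_eq_of_conj hc))
      · intro hc
        exact hw.2 (hWb.symm.trans (bel_eq_of_conj hc))
  · intro o ho
    have h9 : ∀ i, o (bel K Q₁) * w₁ i + (o (bel K Q₂) * e) * w₂ i = 0 := by
      intro i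
      have h10 := ho i
      rw [Finset.sum_pair hbne.symm] at h10
      have h11 : ψ i (bel K Q₁).asIdeal = w₁ i := by
        rw [← hn₁]
        exact hw₁ i
      have h12 : ψ i (bel K Q₂).asIdeal = e * w₂ i := by
        rw [← hn₂]
        exact heψ i
      rw [h11, h12] at h10
      linear_combination h10
    obtain ⟨h10, h11⟩ := indep_pair w₁ w₂ hw₁0 hw₂ _ _ h9
    have h12 : o (bel K Q₂) = 0 := by
      have h13 : o (bel K Q₂) = (o (bel K Q₂) * e) * e := by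
        rw [mul_assoc, hez, mul_one]
      rw [h13, h11, zero_mul]
    intro w hw
    rw [Finset.mem_insert, Finset.mem_singleton] at hw
    rcases hw with rfl | rfl
    · exact h10
    · exact h12
  · refine ⟨bel K Q₁, Finset.mem_insert_self _ _, fun h9 => hQpow ?_⟩
    exact locPow_up p (bel K Q₁) Q₁ ⟨rfl⟩ _ h9

end Pool.Agent.Helper50.LE
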